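import Pool.Agent.H98.EX.LTargets

/-!
# The exact constant of the copolymer slope, lower bound: row LOX
-/

set_option autoImplicit false

open MeasureTheory ProbabilityTheory Filter Topology
open scoped ENNReal
open Pool.Agent.H95 Pool.Agent.H95.Cop
open Pool.Agent.H55.CG (VV Mo)
open Pool.Agent.H96.Cop (chargeLaw)
open Pool.Agent.H98.CE (pc WB HK OBJ nx Fl)
open Pool.Agent.H98.SLN (RG TS MM YY sd)
open Pool.Agent.H98.EX

namespace Pool.Agent.H10.EX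

lemma lox_ceil (ϑ : ℝ) (hϑ : 0 < ϑ) :
    Tendsto (fun lam : ℝ => ⌈ϑ / lam ^ 2⌉₊) (𝓝[>] (0 : ℝ)) atTop := by
  have h1 : Tendsto (fun lam : ℝ => ϑ / lam ^ 2) (𝓝[>] (0 : ℝ)) atTop := by
    have h2 : Tendsto (fun lam : ℝ => lam ^ 2) (𝓝[>] (0 : ℝ)) (𝓝[>] (0 : ℝ)) := by
      rw [tendsto_nhdsWithin_iff]
      refine ⟨?_, ?_⟩
      · have : Tendsto (fun lam : ℝ => lam ^ 2) (𝓝 (0 : ℝ)) (𝓝 (0 ^ 2)) :=
          (continuous_pow 2).tendsto 0
        rw [zero_pow two_ne_zero] at this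
        exact this.mono_left nhdsWithin_le_nhds
      · filter_upwards [self_mem_nhdsWithin] with lam hlam
        have hlam1 : 0 < lam := hlam
        exact pow_pos hlam1 2
    simp_rw [div_eq_mul_inv]
    exact (tendsto_inv_nhdsGT_zero.comp h2).const_mul_atTop hϑ
  exact tendsto_nat_ceil_atTop.comp h1

theorem pf_LOX (hEND : Pool.Agent.H98.CE.T_END) (hTLQ : Pool.Agent.H98.SLN.T_TLQ)
    (hKRX : T_KRX) (hPLM : T_PLM) (hHKX : T_HKX) (hLFX : T_LFX) : T_LOX := by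
  intro e0 he0
  have hks : 0 < ks := by
    unfold ks
    positivity
  set e1 : ℝ := min e0 (ks / 2) with he1
  have he1a : e1 ≤ e0 := min_le_left _ _
  have he1b : e1 ≤ ks / 2 := min_le_right _ _
  have he1p : 0 < e1 := lt_min he0 (by linarith)
  set kl : ℝ := ks - e1 with hkl
  have hkl0 : 0 < kl := by linarith
  obtain ⟨ϑ, r, U, x0, hϑ0, hϑ1, hr0, hr1, hU, hx0, hmain⟩ := hLFX kl hkl0 (by linarith)
  obtain ⟨α1, hα1, hkr⟩ := hKRX r hr0 (by linarith)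
  have hd : 0 < min (x0 ^ 4) ((1 / (8 * kl)) ^ 4) := lt_min (by positivity) (by positivity)
  refine ⟨max α1 (max (1 / 2) (1 - min (x0 ^ 4) ((1 / (8 * kl)) ^ 4))),
    max_lt hα1 (max_lt (by norm_num) (by linarith)), ?_⟩
  intro α hα0 hα1' K hK0 cK hcK hK μ hμ hexp hmean hvar
  have ha1 : α1 < α := (le_max_left _ _).trans_lt hα0
  have ha2 : 1 / 2 < α := ((le_max_left _ _).trans (le_max_right _ _)).trans_lt hα0
  have ha3 : 1 - min (x0 ^ 4) ((1 / (8 * kl)) ^ 4) < α :=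
    ((le_max_right _ _).trans (le_max_right _ _)).trans_lt hα0
  have hδ : 0 < 1 - α := by linarith
  have hδ1 : 1 - α < x0 ^ 4 := by
    have := min_le_left (x0 ^ 4) ((1 / (8 * kl)) ^ 4)
    linarith
  have hδ2 : 1 - α < (1 / (8 * kl)) ^ 4 := by
    have := min_le_right (x0 ^ 4) ((1 / (8 * kl)) ^ 4)
    linarith
  set x : ℝ := (1 - α) ^ (1 / 4 : ℝ) with hx
  have hxp : 0 < x := Real.rpow_pos_of_pos hδ _
  have hx4 : x ^ 4 = 1 - α := by
    rw [hx, ← Real.rpow_natCast, ← Real.rpow_mul hδ.le]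
    norm_num
  have hxx0 : x < x0 := lt_of_pow_lt_pow_left₀ 4 hx0.le (by rw [hx4]; exact hδ1)
  have hxkl : x < 1 / (8 * kl) :=
    lt_of_pow_lt_pow_left₀ 4 (by positivity) (by rw [hx4]; exact hδ2)
  have hkx : kl * x ≤ 1 / 8 := by
    have h1 : kl * x ≤ kl * (1 / (8 * kl)) := mul_le_mul_of_nonneg_left hxkl.le hkl0.le
    have h2 : kl * (1 / (8 * kl)) = 1 / 8 := by field_simp
    linarith
  have hkx0 : 0 ≤ kl * x := by positivity
  have hαpos : 0 < α := by linarith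
  obtain ⟨C, lam0, hC, hlam0, hpl⟩ := hPLM μ hexp hmean hvar ϑ U hϑ0 (by linarith)
    (by linarith)
  have hRG := hkr α ha1 hα1' K hK0 cK hcK hK
  have hev := (lox_ceil ϑ hϑ0).eventually hRG
  have hev2 := (lox_ceil ϑ hϑ0).eventually
    ((tendsto_natCast_atTop_atTop (R := ℝ)).eventually (eventually_ge_atTop (8 / r)))
  have hsm1 : ∀ᶠ lam in 𝓝[>] (0 : ℝ), lam < lam0 :=
    mem_nhdsWithin_of_mem_nhds (Iio_mem_nhds hlam0)
  have hsm2 : ∀ᶠ lam in 𝓝[>] (0 : ℝ), lam < x ^ 4 / C :=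
    mem_nhdsWithin_of_mem_nhds (Iio_mem_nhds (by positivity))
  filter_upwards [hev, hev2, hsm1, hsm2, self_mem_nhdsWithin] with lam hrx hk8 hl1 hl2 hpos
  have hlampos : 0 < lam := hpos
  set h : ℝ := (3 / 4 + kl * x) * lam with hh
  have hh0 : 0 ≤ h := by positivity
  have hLM := hpl lam (kl * x) α hlampos hl1 hkx0 hkx ha2.le hα1'.le
  have hτ : C * lam ≤ x ^ 4 := by
    rw [lt_div_iff₀ hC] at hl2
    linarith
  have hr8 : 8 ≤ r * (⌈ϑ / lam ^ 2⌉₊ : ℝ) := by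
    rw [div_le_iff₀ hr0] at hk8
    linarith
  have hrx' := hrx
  rw [← hx4] at hrx'
  obtain ⟨n, s', hn, hs', hlt⟩ := hmain x hxp hxx0 K (chargeLaw μ lam ((3 / 4 + kl * x) * lam))
    α cK (C * lam) _ _ ⟨hrx', hLM, hr8, by positivity, hτ⟩
  obtain ⟨hHK, hkap, -⟩ := hHKX K α cK (x ^ 4) r _ _ hrx'
  obtain ⟨hℓ1, hqℓ, -, -, -⟩ := hTLQ K α cK (x ^ 4) _ _ hrx'.rg
  have hr2 : 0 < 1 - r := by linarith
  have hκ : (1 - r) ^ 2 * x ^ 4 / 4 ≤ 1 := by
    have h1 : (1 - r) ^ 2 ≤ 1 := pow_le_one₀ hr2.le (by linarith)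
    have h2 : x ^ 4 ≤ 1 := by
      rw [hx4]
      linarith
    have h3 : (1 - r) ^ 2 * x ^ 4 ≤ 1 * 1 := mul_le_mul h1 h2 (by positivity) (by norm_num)
    linarith
  obtain ⟨f, hf0, hf⟩ := hEND α hαpos K hK0 cK hcK hK μ hexp ((1 - r) * cK) _ (by positivity)
    hrx'.lo ⌈ϑ / lam ^ 2⌉₊ n ((1 - r) ^ 2 * x ^ 4 / 4) lam h s' hℓ1 hqℓ (by positivity) hκ
    hHK hkap hn hs' hlt
  have hsup : h ≤ criticalCurve K μ lam :=
    le_csSup (localized_bddAbove μ K hexp lam hlampos) ⟨hh0, f, hf0, hf⟩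
  rw [le_div_iff₀ hlampos]
  refine le_trans ?_ hsup
  rw [hh]
  refine mul_le_mul_of_nonneg_right ?_ hlampos.le
  have h1 : (ks - e0) * x ≤ kl * x := mul_le_mul_of_nonneg_right (by linarith) hxp.le
  linarith

end Pool.Agent.H10.EX
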